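import Pool.Agent.Work.MP_80156a_core7.GFinal
import Pool.Agent.Work.MP_80156a_core7.GTop

/-!
# Symmetric bodies of Helly dimension at most three: coverings by translates of the interior

The results of `MP_80156a_core7` in Euclidean space, for bodies of Helly dimension at most three
(in particular all bodies in dimension at most three).
-/

set_option autoImplicit false

namespace Pool.Agent.Core7.Ext

open Pool.Agent.Work.MP_80156a_co

/-- Helly's theorem for translates. -/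
theorem hp_of_dim {d : ℕ} {K : Set (EuclideanSpace ℝ (Fin d))} (hK : Convex ℝ K) (n : ℕ)
    (hd : d + 1 ≤ n) : HP K n := by
  classical
  intro T hT
  have h := Convex.helly_theorem' (𝕜 := ℝ) (F := fun t : EuclideanSpace ℝ (Fin d) =>
    {x | x - t ∈ K}) (s := T) (fun t _ => ?_) (fun I hI hc => ?_)
  · obtain ⟨x, hx⟩ := h
    refine ⟨x, fun t ht => ?_⟩
    simp only [Set.mem_iInter] at hx
    exact hx t ht
  · intro x hx y hy a b ha hb hab
    have h1 := hK hx hy ha hb hab
    have h2 : a • x + b • y - t = a • (x - t) + b • (y - t) := by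
      have : t = a • t + b • t := by rw [← add_smul, hab, one_smul]
      conv_lhs => rw [this]
      rw [smul_sub, smul_sub]
      abel
    rw [Set.mem_ofPred_eq, h2]
    exact h1
  · rw [finrank_euclideanSpace_fin] at hc
    obtain ⟨x, hx⟩ := hT I hI (hc.trans hd)
    refine ⟨x, ?_⟩
    simp only [Set.mem_iInter]
    exact hx

/-- Bodies which are not parallelotopes, in Euclidean space. -/
theorem lit_or_par {d : ℕ} {K : Set (EuclideanSpace ℝ (Fin d))} (hconv : Convex ℝ K)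
    (hcomp : IsCompact K) (hint : (interior K).Nonempty) (o : EuclideanSpace ℝ (Fin d))
    (hsymm : ∀ x ∈ K, o + o - x ∈ K) (hHP : HP K 4) :
    (∃ L : Finset (EuclideanSpace ℝ (Fin d)), 8 * L.card ≤ 7 * 2 ^ d ∧
      ∀ x ∈ K, ∃ v ∈ L, ∃ t : ℝ, 0 < t ∧ x + t • v ∈ interior K) ∨
    ((∃ L : Finset (EuclideanSpace ℝ (Fin d)), L.card ≤ 2 ^ d ∧
      ∀ x ∈ K, ∃ v ∈ L, ∃ t : ℝ, 0 < t ∧ x + t • v ∈ interior K) ∧
      ∃ S : EuclideanSpace ℝ (Fin d) ≃ₗ[ℝ] (Fin d → ℝ), K = {y | ∀ i, |S (y - o) i| ≤ 1}) := by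
  classical
  set e : (Fin d → ℝ) ≃L[ℝ] EuclideanSpace ℝ (Fin d) := (EuclideanSpace.equiv (Fin d) ℝ).symm
    with he
  set φ : (Fin d → ℝ) ≃ₜ EuclideanSpace ℝ (Fin d) :=
    e.toHomeomorph.trans (Homeomorph.addLeft o) with hφ
  have hφa : ∀ x, φ x = o + e x := fun x => rfl
  set K' : Set (Fin d → ℝ) := φ ⁻¹' K with hK'
  have hmem : ∀ x, x ∈ K' ↔ o + e x ∈ K := fun x => Iff.rfl
  have hBody : Body K' := by
    refine ⟨?_, φ.isCompact_preimage.2 hcomp, ?_, ?_⟩
    · intro x hx y hy α β hα hβ hαβ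
      have h1 := hconv hx hy hα hβ hαβ
      rw [hmem]
      have h2 : o + e (α • x + β • y) = α • φ x + β • φ y := by
        rw [hφa, hφa, map_add, map_smul, map_smul, smul_add, smul_add]
        have : o = α • o + β • o := by rw [← add_smul, hαβ, one_smul]
        conv_lhs => rw [this]
        abel
      rw [h2]
      exact h1
    · rw [hK', ← φ.preimage_interior]
      obtain ⟨x, hx⟩ := hint
      exact ⟨φ.symm x, by simpa using hx⟩
    · intro x hx
      rw [hmem] at hx ⊢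
      have h1 := hsymm _ hx
      rw [map_neg]
      have h2 : o + o - (o + e x) = o + -e x := by abel
      rwa [h2] at h1
  have hHP' : HP K' 4 := hHP.transfer e.toLinearEquiv.toAddEquiv o
  have key : ∀ m, LitNum K' m → ∃ L : Finset (EuclideanSpace ℝ (Fin d)), L.card ≤ m ∧
      ∀ x ∈ K, ∃ v ∈ L, ∃ t : ℝ, 0 < t ∧ x + t • v ∈ interior K := by
    rintro m ⟨D, hD, hlit⟩
    refine ⟨D.image e, Finset.card_image_le.trans hD, fun x hx => ?_⟩
    obtain ⟨v, hv, t, ht, h1⟩ := hlit (φ.symm x) (by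
      rw [hK', Set.mem_preimage, Homeomorph.apply_symm_apply]; exact hx)
    refine ⟨e v, Finset.mem_image_of_mem _ hv, t, ht, ?_⟩
    rw [hK', ← φ.preimage_interior, Set.mem_preimage, hφa, map_add, map_smul] at h1
    have h2 : o + e (φ.symm x) = x := by
      rw [← hφa, Homeomorph.apply_symm_apply]
    rwa [← add_assoc, h2] at h1
  rcases red_of_core G.core7 d K' hBody hHP' with h | ⟨m, hm, h⟩
  · right
    refine ⟨key _ (blk_PARL d K' h).1, ?_⟩
    obtain ⟨S, hS⟩ := h
    refine ⟨e.symm.toLinearEquiv.trans S, ?_⟩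
    ext y
    have h1 : y ∈ K ↔ e.symm (y - o) ∈ K' := by
      rw [hmem, ContinuousLinearEquiv.apply_symm_apply]
      have : o + (y - o) = y := by abel
      rw [this]
    rw [h1, hS]
    rfl
  · left
    obtain ⟨L, hL, hlit⟩ := key m h
    exact ⟨L, (Nat.mul_le_mul_left 8 hL).trans hm, hlit⟩

/-- From lighting to a covering by translates of the interior. -/
theorem cover_of_lit {d : ℕ} {K : Set (EuclideanSpace ℝ (Fin d))} (hconv : Convex ℝ K)
    (hcomp : IsCompact K) {L : Finset (EuclideanSpace ℝ (Fin d))}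
    (hlit : ∀ x ∈ K, ∃ v ∈ L, ∃ t : ℝ, 0 < t ∧ x + t • v ∈ interior K) :
    ∃ T : Finset (EuclideanSpace ℝ (Fin d)), T.card ≤ L.card ∧
      K ⊆ ⋃ t ∈ T, (fun x => t + x) '' interior K := by
  classical
  -- the open sets
  set U : ℕ → Set (EuclideanSpace ℝ (Fin d)) := fun n =>
    ⋃ v ∈ L, {x | x + (1 / ((n : ℝ) + 1)) • v ∈ interior K} with hU
  have hUo : ∀ n, IsOpen (U n) := by
    intro n
    refine isOpen_biUnion fun v _ => ?_
    exact isOpen_interior.preimage (continuous_id.add continuous_const)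
  have hcov : K ⊆ ⋃ n, U n := by
    intro x hx
    obtain ⟨v, hv, t, ht, h⟩ := hlit x hx
    obtain ⟨n, hn⟩ := exists_nat_one_div_lt ht
    refine Set.mem_iUnion.2 ⟨n, Set.mem_iUnion₂.2 ⟨v, hv, ?_⟩⟩
    have hs : 0 < 1 / ((n : ℝ) + 1) := by positivity
    have h1 := hconv.combo_self_interior_mem_interior hx h
      (sub_nonneg.2 ((div_le_one ht).2 hn.le)) (div_pos hs ht) (by ring)
    have h2 : (1 - 1 / ((n : ℝ) + 1) / t) • x + (1 / ((n : ℝ) + 1) / t) • (x + t • v) =
        x + (1 / ((n : ℝ) + 1)) • v := by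
      rw [smul_add, ← add_assoc, ← add_smul, sub_add_cancel, one_smul, smul_smul,
        div_mul_cancel₀ _ ht.ne']
    rw [h2] at h1
    exact h1
  have hmono : ∀ n m, n ≤ m → K ∩ U n ⊆ U m := by
    rintro n m hnm x ⟨hx, hxn⟩
    obtain ⟨v, hv, h⟩ := Set.mem_iUnion₂.1 hxn
    refine Set.mem_iUnion₂.2 ⟨v, hv, ?_⟩
    have hn0 : 0 < 1 / ((n : ℝ) + 1) := by positivity
    have hm0 : 0 < 1 / ((m : ℝ) + 1) := by positivity
    have hle : 1 / ((m : ℝ) + 1) ≤ 1 / ((n : ℝ) + 1) := by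
      apply one_div_le_one_div_of_le (by positivity)
      have : (n : ℝ) ≤ m := by exact_mod_cast hnm
      linarith
    have h1 := hconv.combo_self_interior_mem_interior hx h
      (sub_nonneg.2 ((div_le_one hn0).2 hle)) (div_pos hm0 hn0) (by ring)
    have h2 : (1 - 1 / ((m : ℝ) + 1) / (1 / ((n : ℝ) + 1))) • x +
        (1 / ((m : ℝ) + 1) / (1 / ((n : ℝ) + 1))) • (x + (1 / ((n : ℝ) + 1)) • v) =
        x + (1 / ((m : ℝ) + 1)) • v := by
      rw [smul_add, ← add_assoc, ← add_smul, sub_add_cancel, one_smul, smul_smul,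
        div_mul_cancel₀ _ hn0.ne']
    rw [h2] at h1
    exact h1
  obtain ⟨s, hs⟩ := hcomp.elim_finite_subcover U hUo hcov
  set N := s.sup id with hN
  have hKN : K ⊆ U N := by
    intro x hx
    obtain ⟨n, hn, hxn⟩ := Set.mem_iUnion₂.1 (hs hx)
    exact hmono n N (Finset.le_sup (f := id) hn) ⟨hx, hxn⟩
  refine ⟨L.image fun v => -((1 / ((N : ℝ) + 1)) • v), Finset.card_image_le, fun x hx => ?_⟩
  obtain ⟨v, hv, h⟩ := Set.mem_iUnion₂.1 (hKN hx)
  refine Set.mem_iUnion₂.2 ⟨_, Finset.mem_image_of_mem _ hv, _, h, ?_⟩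
  simp only []
  abel

end Pool.Agent.Core7.Ext
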