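import Pool.Agent.Work.MP_80156a_ext.Cov

/-!
# MP_eba1ef_gt: centrally symmetric bodies of Helly dimension at most three
-/

set_option autoImplicit false

namespace Pool.Agent.Core7.ExtCov

/-- `K` is centrally symmetric (with respect to some point). -/
def CentrallySymmetric {d : ℕ} (K : Set (EuclideanSpace ℝ (Fin d))) : Prop :=
  ∃ o : EuclideanSpace ℝ (Fin d), ∀ x ∈ K, o + o - x ∈ K

/-- If any `n` of finitely many translates of `K` have a common point, then all have. -/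
def TranslatesHelly {d : ℕ} (K : Set (EuclideanSpace ℝ (Fin d))) (n : ℕ) : Prop :=
  ∀ T : Finset (EuclideanSpace ℝ (Fin d)),
    (∀ S ⊆ T, S.card ≤ n → ∃ x : EuclideanSpace ℝ (Fin d), ∀ t ∈ S, x - t ∈ K) →
    ∃ x : EuclideanSpace ℝ (Fin d), ∀ t ∈ T, x - t ∈ K

/-- `K` is covered by at most `n` translates of its interior. -/
def CoveredBy {d : ℕ} (K : Set (EuclideanSpace ℝ (Fin d))) (n : ℕ) : Prop :=
  ∃ T : Finset (EuclideanSpace ℝ (Fin d)), T.card ≤ n ∧ K ⊆ ⋃ t ∈ T, (fun x => t + x) '' interior K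

/-- `K` is a parallelotope. -/
def IsParallelotope {d : ℕ} (K : Set (EuclideanSpace ℝ (Fin d))) : Prop :=
  ∃ (S : EuclideanSpace ℝ (Fin d) ≃ₗ[ℝ] (Fin d → ℝ)) (o : EuclideanSpace ℝ (Fin d)),
    K = {y | ∀ i, |S (y - o) i| ≤ 1}

/-- The covering conjecture for all centrally symmetric bodies of Helly dimension at most three,
with the case of equality. -/
theorem result (d : ℕ) (K : Set (EuclideanSpace ℝ (Fin d)))
    (hconv : Convex ℝ K) (hcomp : IsCompact K) (hint : (interior K).Nonempty)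
    (hsymm : CentrallySymmetric K) (hH : d ≤ 3 ∨ TranslatesHelly K 4) :
    CoveredBy K (2 ^ d) ∧ (3 ≤ d → ¬ IsParallelotope K → CoveredBy K (7 * 2 ^ (d - 3))) := by
  obtain ⟨o, ho⟩ := hsymm
  have hP : Pool.Agent.Work.MP_80156a_co.HP K 4 := by
    rcases hH with h | h
    · exact Pool.Agent.Core7.Ext.hp_of_dim hconv 4 (by omega)
    · exact h
  have key : ∀ {L : Finset (EuclideanSpace ℝ (Fin d))} {n : ℕ}, L.card ≤ n →
      (∀ x ∈ K, ∃ v ∈ L, ∃ t : ℝ, 0 < t ∧ x + t • v ∈ interior K) → CoveredBy K n := by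
    intro L n hL hlit
    obtain ⟨T, hT, hcov⟩ := Pool.Agent.Core7.Ext.cover_of_lit hconv hcomp hlit
    exact ⟨T, hT.trans hL, hcov⟩
  rcases Pool.Agent.Core7.Ext.lit_or_par hconv hcomp hint o ho hP with
    ⟨L, hL, hlit⟩ | ⟨⟨L, hL, hlit⟩, S, hS⟩
  · refine ⟨key (by omega) hlit, fun hd _ => key ?_ hlit⟩
    obtain ⟨n, rfl⟩ : ∃ n, d = n + 3 := ⟨d - 3, by omega⟩
    have h1 : n + 3 - 3 = n := by omega
    rw [h1]
    rw [pow_add] at hL
    omega
  · exact ⟨key hL hlit, fun _ h => absurd ⟨S, o, hS⟩ h⟩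

end Pool.Agent.Core7.ExtCov
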