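import Pool.Agent.Work.MP_80156a_ext.Cov

/-!
# Symmetric bodies: separation of the faces from the centre (the polar form)
-/

set_option autoImplicit false

open scoped InnerProductSpace

namespace Pool.Agent.Core7.Ext

open Pool.Agent.Work.MP_80156a_co

variable {d : ℕ}

/-- The polar body of `K` with respect to the point `o`. -/
def polarAt (K : Set (EuclideanSpace ℝ (Fin d))) (o : EuclideanSpace ℝ (Fin d)) :
    Set (EuclideanSpace ℝ (Fin d)) := {y | ∀ x ∈ K, ⟪y, x - o⟫_ℝ ≤ 1}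

theorem polarAt_convex (K : Set (EuclideanSpace ℝ (Fin d))) (o : EuclideanSpace ℝ (Fin d)) :
    Convex ℝ (polarAt K o) := by
  intro y hy z hz a b ha hb hab x hx
  rw [inner_add_left, inner_smul_left, inner_smul_left]
  simp only [conj_trivial]
  have h1 := mul_le_mul_of_nonneg_left (hy x hx) ha
  have h2 := mul_le_mul_of_nonneg_left (hz x hx) hb
  linarith

theorem polarAt_closed (K : Set (EuclideanSpace ℝ (Fin d))) (o : EuclideanSpace ℝ (Fin d)) :
    IsClosed (polarAt K o) := by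
  have h : polarAt K o = ⋂ x ∈ K, {y | ⟪y, x - o⟫_ℝ ≤ 1} := by
    ext y
    simp [polarAt]
  rw [h]
  exact isClosed_biInter fun x _ =>
    isClosed_le (continuous_id.inner continuous_const) continuous_const

theorem polarAt_zero (K : Set (EuclideanSpace ℝ (Fin d))) (o : EuclideanSpace ℝ (Fin d)) :
    (0 : EuclideanSpace ℝ (Fin d)) ∈ polarAt K o := by
  intro x _
  rw [inner_zero_left]
  norm_num

/-- The value of a functional at interior points. -/
theorem inner_bound {K : Set (EuclideanSpace ℝ (Fin d))} {o : EuclideanSpace ℝ (Fin d)}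
    (ho : o ∈ interior K) : ∃ r : ℝ, 0 < r ∧ ∀ y : EuclideanSpace ℝ (Fin d), ∀ c : ℝ,
      (∀ x ∈ K, ⟪y, x - o⟫_ℝ ≤ c) → r * ‖y‖ ≤ c := by
  obtain ⟨r, hr, hball⟩ := Metric.mem_nhds_iff.1 (mem_interior_iff_mem_nhds.1 ho)
  refine ⟨r / 2, half_pos hr, fun y c hy => ?_⟩
  rcases eq_or_ne y 0 with rfl | hy0
  · have h1 := hy o (interior_subset ho)
    simpa using h1
  · have hn : 0 < ‖y‖ := norm_pos_iff.2 hy0
    have h1 : o + (r / 2 / ‖y‖) • y ∈ K := by
      apply hball
      rw [Metric.mem_ball, dist_eq_norm, add_sub_cancel_left, norm_smul, Real.norm_eq_abs,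
        abs_of_pos (by positivity), div_mul_cancel₀ _ hn.ne']
      linarith
    have h2 := hy _ h1
    rw [add_sub_cancel_left, inner_smul_right, real_inner_self_eq_norm_sq] at h2
    have h3 : r / 2 / ‖y‖ * ‖y‖ ^ 2 = r / 2 * ‖y‖ := by
      field_simp
    rwa [h3] at h2

theorem polarAt_compact {K : Set (EuclideanSpace ℝ (Fin d))} {o : EuclideanSpace ℝ (Fin d)}
    (ho : o ∈ interior K) : IsCompact (polarAt K o) := by
  obtain ⟨r, hr, h⟩ := inner_bound ho
  refine Metric.isCompact_of_isClosed_isBounded (polarAt_closed K o) ?_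
  refine (Metric.isBounded_closedBall (x := (0 : EuclideanSpace ℝ (Fin d))) (r := 1 / r)).subset ?_
  intro y hy
  rw [mem_closedBall_zero_iff, le_div_iff₀ hr, mul_comm]
  exact h y 1 hy

theorem polarAt_interior {K : Set (EuclideanSpace ℝ (Fin d))} (hcomp : IsCompact K)
    (o : EuclideanSpace ℝ (Fin d)) : (0 : EuclideanSpace ℝ (Fin d)) ∈ interior (polarAt K o) := by
  obtain ⟨R, hR⟩ := hcomp.isBounded.subset_closedBall o
  rw [mem_interior_iff_mem_nhds, Metric.mem_nhds_iff]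
  refine ⟨1 / (max R 1), by positivity, fun y hy x hx => ?_⟩
  rw [mem_ball_zero_iff] at hy
  have h1 : ‖x - o‖ ≤ max R 1 := by
    have := hR hx
    rw [Metric.mem_closedBall, dist_eq_norm] at this
    exact this.trans (le_max_left _ _)
  have hm : (0 : ℝ) < max R 1 := lt_of_lt_of_le one_pos (le_max_right _ _)
  calc ⟪y, x - o⟫_ℝ ≤ ‖y‖ * ‖x - o‖ := real_inner_le_norm _ _
    _ ≤ 1 / max R 1 * max R 1 := mul_le_mul hy.le h1 (norm_nonneg _) (by positivity)
    _ = 1 := by rw [one_div, inv_mul_cancel₀ hm.ne']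

theorem polarAt_symm {K : Set (EuclideanSpace ℝ (Fin d))} {o : EuclideanSpace ℝ (Fin d)}
    (hs : ∀ x ∈ K, o + o - x ∈ K) : ∀ y ∈ polarAt K o, (0 : EuclideanSpace ℝ (Fin d)) + 0 - y ∈
      polarAt K o := by
  intro y hy x hx
  have h1 := hy _ (hs x hx)
  have h2 : o + o - x - o = -(x - o) := by abel
  rw [h2, inner_neg_right] at h1
  rw [add_zero, zero_sub, inner_neg_left]
  exact h1

/-- Bipolar theorem. -/
theorem mem_of_bipolar {K : Set (EuclideanSpace ℝ (Fin d))} {o : EuclideanSpace ℝ (Fin d)}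
    (hconv : Convex ℝ K) (hclosed : IsClosed K) (ho : o ∈ interior K)
    {x : EuclideanSpace ℝ (Fin d)} (hx : ∀ y ∈ polarAt K o, ⟪y, x - o⟫_ℝ ≤ 1) : x ∈ K := by
  by_contra hxK
  obtain ⟨f, s, hf, hs⟩ := geometric_hahn_banach_closed_point hconv hclosed hxK
  set u := (InnerProductSpace.toDual ℝ (EuclideanSpace ℝ (Fin d))).symm f with hu
  have hfu : ∀ z, f z = ⟪u, z⟫_ℝ := fun z => by
    rw [hu, InnerProductSpace.toDual_symm_apply]
  have h0 : 0 < s - ⟪u, o⟫_ℝ := by
    have := hf o (interior_subset ho)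
    rw [hfu] at this
    linarith
  have h1 : (s - ⟪u, o⟫_ℝ)⁻¹ • u ∈ polarAt K o := by
    intro z hz
    have h2 := hf z hz
    rw [hfu] at h2
    rw [inner_smul_left, inner_sub_right]
    simp only [conj_trivial]
    rw [inv_mul_le_iff₀ h0]
    linarith
  have h3 := hx _ h1
  rw [inner_smul_left, inner_sub_right] at h3
  simp only [conj_trivial] at h3
  rw [inv_mul_le_iff₀ h0] at h3
  rw [hfu] at hs
  linarith

/-- A covering by translates of the interior is a covering with a margin. -/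
theorem margin {P : Set (EuclideanSpace ℝ (Fin d))} (hconv : Convex ℝ P) (hcomp : IsCompact P)
    (h0 : (0 : EuclideanSpace ℝ (Fin d)) ∈ P) {T : Finset (EuclideanSpace ℝ (Fin d))}
    (hT : P ⊆ ⋃ t ∈ T, (fun x => t + x) '' interior P) :
    ∃ a : ℝ, 0 < a ∧ ∀ y ∈ P, ∃ t ∈ T, (1 + a) • (y - t) ∈ P := by
  set U : ℕ → Set (EuclideanSpace ℝ (Fin d)) := fun n =>
    ⋃ t ∈ T, {y | (1 + 1 / ((n : ℝ) + 1)) • (y - t) ∈ interior P} with hU
  have hUo : ∀ n, IsOpen (U n) := by
    intro n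
    refine isOpen_biUnion fun t _ => ?_
    exact isOpen_interior.preimage (f := fun y => (1 + 1 / ((n : ℝ) + 1)) • (y - t)) (by fun_prop)
  have hcov : P ⊆ ⋃ n, U n := by
    intro y hy
    obtain ⟨t, ht, z, hz, hzy⟩ := Set.mem_iUnion₂.1 (hT hy)
    have hyz : y - t = z := by
      rw [← hzy]
      simp only []
      abel
    have hcont : Filter.Tendsto (fun n : ℕ => (1 + 1 / ((n : ℝ) + 1)) • (y - t)) Filter.atTop
        (nhds ((1 + 0 : ℝ) • (y - t))) :=
      (tendsto_const_nhds.add tendsto_one_div_add_atTop_nhds_zero_nat).smul_const _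
    rw [add_zero, one_smul, hyz] at hcont
    have h1 := hcont.eventually (isOpen_interior.mem_nhds hz)
    obtain ⟨n, hn⟩ := h1.exists
    refine Set.mem_iUnion.2 ⟨n, Set.mem_iUnion₂.2 ⟨t, ht, ?_⟩⟩
    rw [Set.mem_ofPred_eq, hyz]
    exact hn
  have hmono : ∀ n m, n ≤ m → U n ⊆ U m := by
    intro n m hnm y hy
    obtain ⟨t, ht, h⟩ := Set.mem_iUnion₂.1 hy
    refine Set.mem_iUnion₂.2 ⟨t, ht, ?_⟩
    have hn0 : 0 < 1 + 1 / ((n : ℝ) + 1) := by positivity
    have hm0 : 0 < 1 + 1 / ((m : ℝ) + 1) := by positivity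
    have hle : 1 + 1 / ((m : ℝ) + 1) ≤ 1 + 1 / ((n : ℝ) + 1) := by
      have : 1 / ((m : ℝ) + 1) ≤ 1 / ((n : ℝ) + 1) := by
        apply one_div_le_one_div_of_le (by positivity)
        have : (n : ℝ) ≤ m := by exact_mod_cast hnm
        linarith
      linarith
    have h1 := hconv.combo_self_interior_mem_interior h0 h
      (sub_nonneg.2 ((div_le_one hn0).2 hle)) (div_pos hm0 hn0) (by ring)
    rw [smul_zero, zero_add, smul_smul, div_mul_cancel₀ _ hn0.ne'] at h1
    exact h1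
  obtain ⟨s, hs⟩ := hcomp.elim_finite_subcover U hUo hcov
  refine ⟨1 / ((s.sup id : ℕ) + 1 : ℝ), by positivity, fun y hy => ?_⟩
  obtain ⟨n, hn, hyn⟩ := Set.mem_iUnion₂.1 (hs hy)
  obtain ⟨t, ht, h⟩ := Set.mem_iUnion₂.1 (hmono n _ (Finset.le_sup (f := id) hn) hyn)
  exact ⟨t, ht, interior_subset h⟩

/-- All faces of `K` are separated from `o` by `n` hyperplanes. -/
def Sep (K : Set (EuclideanSpace ℝ (Fin d))) (o : EuclideanSpace ℝ (Fin d)) (n : ℕ) : Prop :=
  ∃ w : Fin n → EuclideanSpace ℝ (Fin d), ∃ b : Fin n → ℝ,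
    ∀ u x₀ : EuclideanSpace ℝ (Fin d), u ≠ 0 → x₀ ∈ K →
      (∀ y ∈ K, ⟪u, y⟫_ℝ ≤ ⟪u, x₀⟫_ℝ) →
        ∃ i, ⟪w i, o⟫_ℝ < b i ∧
          ∀ x ∈ K, ⟪u, x⟫_ℝ = ⟪u, x₀⟫_ℝ → b i < ⟪w i, x⟫_ℝ

theorem exists_fin {α : Type*} [Inhabited α] (T : Finset α) {n : ℕ} (h : T.card ≤ n) :
    ∃ f : Fin n → α, ∀ t ∈ T, ∃ i, f i = t := by
  classical
  refine ⟨fun i => if hi : (i : ℕ) < T.card then (T.equivFin.symm ⟨i, hi⟩ : α) else default,
    fun t ht => ?_⟩
  refine ⟨⟨T.equivFin ⟨t, ht⟩, lt_of_lt_of_le (T.equivFin ⟨t, ht⟩).2 h⟩, ?_⟩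
  simp

/-- From a covering of the polar body to the separation of the faces. -/
theorem sep_of_cover {K : Set (EuclideanSpace ℝ (Fin d))} {o : EuclideanSpace ℝ (Fin d)}
    (ho : o ∈ interior K) {T : Finset (EuclideanSpace ℝ (Fin d))}
    (hT : polarAt K o ⊆ ⋃ t ∈ T, (fun x => t + x) '' interior (polarAt K o)) {n : ℕ}
    (hn : T.card ≤ n) : Sep K o n := by
  obtain ⟨a, ha, hma⟩ := margin (polarAt_convex K o) (polarAt_compact ho) (polarAt_zero K o) hT
  obtain ⟨w, hw⟩ := exists_fin T hn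
  set δ : ℝ := a / (1 + a) with hδ
  have hδ0 : 0 < δ := by positivity
  refine ⟨w, fun i => ⟪w i, o⟫_ℝ + δ / 2, fun u x₀ hu hx₀ hsup => ?_⟩
  have hh : 0 < ⟪u, x₀ - o⟫_ℝ := by
    obtain ⟨r, hr, h⟩ := inner_bound ho
    have h1 := h u ⟪u, x₀ - o⟫_ℝ fun x hx => by
      rw [inner_sub_right, inner_sub_right]
      linarith [hsup x hx]
    exact lt_of_lt_of_le (mul_pos hr (norm_pos_iff.2 hu)) h1
  set h := ⟪u, x₀ - o⟫_ℝ with hhd
  have hyP : h⁻¹ • u ∈ polarAt K o := by
    intro x hx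
    rw [inner_smul_left, inner_sub_right]
    simp only [conj_trivial]
    rw [inv_mul_le_iff₀ hh, mul_one, hhd, inner_sub_right]
    linarith [hsup x hx]
  obtain ⟨t, ht, hty⟩ := hma _ hyP
  obtain ⟨i, rfl⟩ := hw t ht
  refine ⟨i, by linarith, fun x hx hux => ?_⟩
  have h1 := hty x hx
  rw [inner_smul_left, inner_sub_left, inner_smul_left] at h1
  simp only [conj_trivial] at h1
  have h2 : h⁻¹ * ⟪u, x - o⟫_ℝ = 1 := by
    rw [inner_sub_right, hux, ← inner_sub_right, ← hhd, inv_mul_cancel₀ hh.ne']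
  rw [h2] at h1
  have h3 : δ ≤ ⟪w i, x - o⟫_ℝ := by
    rw [hδ, div_le_iff₀ (by positivity)]
    nlinarith [h1]
  rw [inner_sub_right] at h3
  linarith

/-- If the polar body is a parallelotope, then `K` is a cross-body. -/
theorem cross_of_par {K : Set (EuclideanSpace ℝ (Fin d))} {o : EuclideanSpace ℝ (Fin d)}
    (hd : 0 < d) (hconv : Convex ℝ K) (hcomp : IsCompact K) (ho : o ∈ interior K)
    (S : EuclideanSpace ℝ (Fin d) ≃ₗ[ℝ] (Fin d → ℝ))
    (hS : polarAt K o = {y | ∀ i, |S y i| ≤ 1}) :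
    ∃ v : Fin d → EuclideanSpace ℝ (Fin d), ∃ t : Fin d → ℝ,
      LinearIndependent ℝ v ∧ (∀ i, 0 < t i) ∧
        K = convexHull ℝ (⋃ i, ({o + v i, o - t i • v i} : Set (EuclideanSpace ℝ (Fin d)))) := by
  classical
  -- the vectors
  set v : Fin d → EuclideanSpace ℝ (Fin d) := fun i =>
    (InnerProductSpace.toDual ℝ (EuclideanSpace ℝ (Fin d))).symm
      (LinearMap.toContinuousLinearMap ((LinearMap.proj i).comp S.toLinearMap)) with hv
  have hvS : ∀ i y, ⟪v i, y⟫_ℝ = S y i := by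
    intro i y
    rw [hv]
    simp only []
    rw [InnerProductSpace.toDual_symm_apply]
    rfl
  have hmem : ∀ y, y ∈ polarAt K o ↔ ∀ i, |S y i| ≤ 1 := fun y => by rw [hS]; rfl
  refine ⟨v, fun _ => 1, ?_, fun _ => one_pos, ?_⟩
  · rw [Fintype.linearIndependent_iff]
    intro g hg i
    have h1 : ⟪∑ j, g j • v j, S.symm (Pi.single i 1)⟫_ℝ = 0 := by rw [hg, inner_zero_left]
    rw [sum_inner] at h1
    simp only [inner_smul_left, conj_trivial, hvS, LinearEquiv.apply_symm_apply] at h1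
    rw [Finset.sum_eq_single i] at h1
    · simpa using h1
    · intro j _ hj
      rw [Pi.single_eq_of_ne hj, mul_zero]
    · intro h
      exact absurd (Finset.mem_univ i) h
  · have hpt : ∀ i, ∀ s : ℝ, (s = 1 ∨ s = -1) → o + s • v i ∈ K := by
      intro i s hs
      refine mem_of_bipolar hconv hcomp.isClosed ho fun y hy => ?_
      rw [add_sub_cancel_left, inner_smul_right, real_inner_comm, hvS]
      have h1 := abs_le.1 ((hmem y).1 hy i)
      rcases hs with rfl | rfl
      · linarith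
      · linarith
    apply Set.Subset.antisymm
    · intro x hx
      by_contra hxC
      have hC : IsClosed (convexHull ℝ (⋃ i, ({o + v i, o - (1 : ℝ) • v i} :
          Set (EuclideanSpace ℝ (Fin d))))) := by
        have hfin : (⋃ i, ({o + v i, o - (1 : ℝ) • v i} :
          Set (EuclideanSpace ℝ (Fin d)))).Finite := Set.finite_iUnion fun i => Set.toFinite _
        exact hfin.isClosed_convexHull ℝ
      obtain ⟨f, s, hf, hs⟩ := geometric_hahn_banach_closed_point (convex_convexHull ℝ _) hC hxC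
      set u := (InnerProductSpace.toDual ℝ (EuclideanSpace ℝ (Fin d))).symm f with hu
      have hfu : ∀ z, f z = ⟪u, z⟫_ℝ := fun z => by
        rw [hu, InnerProductSpace.toDual_symm_apply]
      have hp : ∀ i, ⟪u, o⟫_ℝ + S u i < s := by
        intro i
        have h1 := hf (o + v i) (subset_convexHull ℝ _ (Set.mem_iUnion.2 ⟨i, by simp⟩))
        rwa [hfu, inner_add_right, real_inner_comm u (v i) |>.symm, hvS] at h1
      have hm : ∀ i, ⟪u, o⟫_ℝ - S u i < s := by
        intro i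
        have h1 := hf (o - (1 : ℝ) • v i) (subset_convexHull ℝ _ (Set.mem_iUnion.2 ⟨i, by simp⟩))
        rwa [hfu, one_smul, inner_sub_right, real_inner_comm u (v i) |>.symm, hvS] at h1
      have h0 : 0 < s - ⟪u, o⟫_ℝ := by
        have a1 := hp ⟨0, hd⟩
        have a2 := hm ⟨0, hd⟩
        linarith
      have h2 : (s - ⟪u, o⟫_ℝ)⁻¹ • u ∈ polarAt K o := by
        rw [hmem]
        intro i
        rw [map_smul, Pi.smul_apply, smul_eq_mul, abs_mul, abs_of_pos (inv_pos.2 h0),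
          inv_mul_le_iff₀ h0, mul_one, abs_le]
        constructor
        · linarith [hm i]
        · linarith [hp i]
      have h3 := h2 x hx
      rw [inner_smul_left, inner_sub_right] at h3
      simp only [conj_trivial] at h3
      rw [inv_mul_le_iff₀ h0] at h3
      rw [hfu] at hs
      linarith
    · refine convexHull_min ?_ hconv
      intro z hz
      obtain ⟨i, hi⟩ := Set.mem_iUnion.1 hz
      simp only [Set.mem_insert_iff, Set.mem_singleton_iff] at hi
      rcases hi with rfl | rfl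
      · have := hpt i 1 (Or.inl rfl)
        rwa [one_smul] at this
      · have := hpt i (-1) (Or.inr rfl)
        rw [neg_one_smul, ← sub_eq_add_neg] at this
        rw [one_smul]
        exact this

end Pool.Agent.Core7.Ext
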