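import Pool.Agent.Work.MP_80156a_ext.Dual

/-!
# MP_5e7226_co: separation of the faces of a body from its centre of symmetry
-/

set_option autoImplicit false

open scoped InnerProductSpace

namespace Pool.Agent.Core7.ExtSep

/-- `s(K, o) ≤ n`: there are `n` hyperplanes such that every face of `K` is strictly separated from
`o` by one of them. -/
def SeparatedBy {d : ℕ} (K : Set (EuclideanSpace ℝ (Fin d))) (o : EuclideanSpace ℝ (Fin d))
    (n : ℕ) : Prop :=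
  ∃ w : Fin n → EuclideanSpace ℝ (Fin d), ∃ b : Fin n → ℝ,
    ∀ u x₀ : EuclideanSpace ℝ (Fin d), u ≠ 0 → x₀ ∈ K →
      (∀ y ∈ K, ⟪u, y⟫_ℝ ≤ ⟪u, x₀⟫_ℝ) →
        ∃ i, ⟪w i, o⟫_ℝ < b i ∧
          ∀ x ∈ K, ⟪u, x⟫_ℝ = ⟪u, x₀⟫_ℝ → b i < ⟪w i, x⟫_ℝ

/-- `K` is a cross-body centred at `o`. -/
def IsCrossBody {d : ℕ} (K : Set (EuclideanSpace ℝ (Fin d))) (o : EuclideanSpace ℝ (Fin d)) :
    Prop :=
  ∃ v : Fin d → EuclideanSpace ℝ (Fin d), ∃ t : Fin d → ℝ,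
    LinearIndependent ℝ v ∧ (∀ i, 0 < t i) ∧
      K = convexHull ℝ (⋃ i, ({o + v i, o - t i • v i} : Set (EuclideanSpace ℝ (Fin d))))

/-- The polar body of `K` with respect to `o`. -/
def polarBody {d : ℕ} (K : Set (EuclideanSpace ℝ (Fin d))) (o : EuclideanSpace ℝ (Fin d)) :
    Set (EuclideanSpace ℝ (Fin d)) :=
  {y | ∀ x ∈ K, ⟪y, x - o⟫_ℝ ≤ 1}

/-- If any `n` of finitely many translates of `P` have a common point, then all have. -/
def TranslatesHelly {d : ℕ} (P : Set (EuclideanSpace ℝ (Fin d))) (n : ℕ) : Prop :=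
  ∀ T : Finset (EuclideanSpace ℝ (Fin d)),
    (∀ S ⊆ T, S.card ≤ n → ∃ x : EuclideanSpace ℝ (Fin d), ∀ t ∈ S, x - t ∈ P) →
    ∃ x : EuclideanSpace ℝ (Fin d), ∀ t ∈ T, x - t ∈ P

/-- Q1 for the centre of symmetry, in dimension three for all bodies, and in higher dimensions for
the bodies whose polar body has Helly dimension at most three. -/
theorem result (d : ℕ) (hd : 3 ≤ d) (K : Set (EuclideanSpace ℝ (Fin d)))
    (hconv : Convex ℝ K) (hcomp : IsCompact K) (o : EuclideanSpace ℝ (Fin d))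
    (ho : o ∈ interior K) (hsymm : ∀ x ∈ K, o + o - x ∈ K)
    (hH : d = 3 ∨ TranslatesHelly (polarBody K o) 4) :
    SeparatedBy K o (2 ^ d) ∧ (¬ SeparatedBy K o (2 ^ d - 2 ^ (d - 3)) → IsCrossBody K o) := by
  have hP : Pool.Agent.Work.MP_80156a_co.HP (Pool.Agent.Core7.Ext.polarAt K o) 4 := by
    rcases hH with rfl | h
    · exact Pool.Agent.Core7.Ext.hp_of_dim (Pool.Agent.Core7.Ext.polarAt_convex K o) 4 le_rfl
    · exact h
  have key : ∀ {L : Finset (EuclideanSpace ℝ (Fin d))} {n : ℕ}, L.card ≤ n →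
      (∀ x ∈ Pool.Agent.Core7.Ext.polarAt K o, ∃ v ∈ L, ∃ t : ℝ, 0 < t ∧
        x + t • v ∈ interior (Pool.Agent.Core7.Ext.polarAt K o)) → SeparatedBy K o n := by
    intro L n hL hlit
    obtain ⟨T, hT, hcov⟩ := Pool.Agent.Core7.Ext.cover_of_lit
      (Pool.Agent.Core7.Ext.polarAt_convex K o) (Pool.Agent.Core7.Ext.polarAt_compact ho) hlit
    exact Pool.Agent.Core7.Ext.sep_of_cover ho hcov (hT.trans hL)
  rcases Pool.Agent.Core7.Ext.lit_or_par (Pool.Agent.Core7.Ext.polarAt_convex K o)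
    (Pool.Agent.Core7.Ext.polarAt_compact ho) ⟨0, Pool.Agent.Core7.Ext.polarAt_interior hcomp o⟩ 0
    (Pool.Agent.Core7.Ext.polarAt_symm hsymm) hP with ⟨L, hL, hlit⟩ | ⟨⟨L, hL, hlit⟩, S, hS⟩
  · have hL2 : L.card ≤ 2 ^ d - 2 ^ (d - 3) := by
      obtain ⟨n, rfl⟩ : ∃ n, d = n + 3 := ⟨d - 3, by omega⟩
      have h1 : n + 3 - 3 = n := by omega
      rw [h1]
      rw [pow_add] at hL ⊢
      omega
    exact ⟨key (hL2.trans (Nat.sub_le _ _)) hlit, fun h => absurd (key hL2 hlit) h⟩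
  · refine ⟨key hL hlit, fun _ => ?_⟩
    refine Pool.Agent.Core7.Ext.cross_of_par (by omega) hconv hcomp ho S ?_
    rw [hS]
    simp only [sub_zero]

end Pool.Agent.Core7.ExtSep
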